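import Pool.Agent.H28.BR.Stm5

/-!
# Project BR4 (helper28), module LF2: the second moment over all fundamental discriminants (helper39)
-/

set_option autoImplicit false

namespace Pool.Agent.H39.BR4

open Finset Filter Topology MeasureTheory Pool.Agent.H306R2.RZ Pool.Agent.H306R2.RG
  Pool.Agent.Q122.FM Pool.Agent.H28.BR Pool.Agent.H28.BR3 Pool.Agent.H28.BR4 Pool.Agent.H94.BR

noncomputable section

/-- a sum over one class -/
def RG (f : ℕ → ℝ) (c y x : ℕ) : ℝ :=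
  ∑ d ∈ (Ioc y x).filter (fun d => d % 8 = c ∧ Squarefree d), f d

theorem CG_one (f : ℕ → ℝ) (c y x : ℕ) :
    Pool.Agent.H94.BR.CG f c y x (fun _ => 1) = ((RG f c y x : ℝ) : ℂ) := by
  unfold Pool.Agent.H94.BR.CG RG
  push_cast
  exact sum_congr rfl fun d _ => mul_one _

theorem lg_tendsto : Tendsto (fun X : ℕ => lg X) atTop atTop := by
  unfold lg
  exact tendsto_atTop_add_const_left _ _ (Real.tendsto_log_atTop.comp tendsto_natCast_atTop_atTop)

/-- `X / r` in the denominator -/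
theorem ratio (r : ℕ) (hr : 1 ≤ r) : Tendsto (fun X : ℕ =>
    (((X / r : ℕ) : ℝ) * lg (X / r) ^ 3) / ((X : ℝ) * lg X ^ 3)) atTop (𝓝 (1 / (r : ℝ))) := by
  have hr0 : (0 : ℝ) < r := by exact_mod_cast hr
  have h1 : Tendsto (fun X : ℕ => ((X / r : ℕ) : ℝ) / (X : ℝ)) atTop (𝓝 (1 / (r : ℝ))) := by
    have hlow : Tendsto (fun X : ℕ => 1 / (r : ℝ) - 1 / (X : ℝ)) atTop (𝓝 (1 / (r : ℝ))) := by
      have := (tendsto_const_nhds (x := 1 / (r : ℝ))).sub
        (tendsto_one_div_atTop_nhds_zero_nat (𝕜 := ℝ))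
      simpa using this
    refine tendsto_of_tendsto_of_tendsto_of_le_of_le' hlow tendsto_const_nhds ?_ ?_
    · filter_upwards [eventually_ge_atTop 1] with X hX
      have hX0 : (0 : ℝ) < X := by exact_mod_cast hX
      have h2 : (X : ℝ) < r * (((X / r : ℕ) : ℝ) + 1) := by
        have := Nat.lt_mul_div_succ X (by omega : 0 < r)
        exact_mod_cast this
      rw [le_div_iff₀ hX0, sub_mul, one_div_mul_cancel hX0.ne', sub_le_iff_le_add]
      rw [one_div, inv_mul_le_iff₀ hr0]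
      exact h2.le
    · filter_upwards [eventually_ge_atTop 1] with X hX
      have hX0 : (0 : ℝ) < X := by exact_mod_cast hX
      rw [div_le_div_iff₀ hX0 hr0, one_mul]
      exact_mod_cast Nat.div_mul_le_self X r
  have h2 : Tendsto (fun X : ℕ => lg (X / r) / lg X) atTop (𝓝 1) := by
    have hlow : Tendsto (fun X : ℕ => 1 - Real.log (2 * r) / lg X) atTop (𝓝 1) := by
      have := (tendsto_const_nhds (x := (1 : ℝ))).sub (lg_tendsto.const_div_atTop (Real.log (2 * r)))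
      simpa using this
    refine tendsto_of_tendsto_of_tendsto_of_le_of_le' hlow tendsto_const_nhds ?_ ?_
    · filter_upwards [eventually_ge_atTop r] with X hX
      have hX1 : 1 ≤ X := by omega
      have hl : 0 < lg X := by have := lg_one_le hX1; linarith
      have hd : 1 ≤ X / r := by
        rw [Nat.le_div_iff_mul_le (by omega)]
        omega
      have hd0 : (0 : ℝ) < ((X / r : ℕ) : ℝ) := by exact_mod_cast hd
      have hX0 : (0 : ℝ) < X := by exact_mod_cast hX1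
      rw [le_div_iff₀ hl, sub_mul, one_mul, div_mul_cancel₀ _ hl.ne', sub_le_iff_le_add]
      have h3 : (X : ℝ) ≤ 2 * r * ((X / r : ℕ) : ℝ) := by
        have h4 : X < r * (X / r + 1) := Nat.lt_mul_div_succ X (by omega)
        have h5 : r * (X / r + 1) ≤ 2 * r * (X / r) := by nlinarith
        exact_mod_cast (h4.trans_le h5).le
      have h4 := Real.log_le_log hX0 h3
      rw [Real.log_mul (by positivity) hd0.ne'] at h4
      unfold lg
      linarith
    · filter_upwards [eventually_ge_atTop r] with X hX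
      have hX1 : 1 ≤ X := by omega
      have hl : 0 < lg X := by have := lg_one_le hX1; linarith
      have hd : 1 ≤ X / r := by
        rw [Nat.le_div_iff_mul_le (by omega)]
        omega
      have hd0 : (0 : ℝ) < ((X / r : ℕ) : ℝ) := by exact_mod_cast hd
      rw [div_le_one hl]
      unfold lg
      have : Real.log ((X / r : ℕ) : ℝ) ≤ Real.log X :=
        Real.log_le_log hd0 (by exact_mod_cast Nat.div_le_self X r)
      linarith
  have h3 := h1.mul (h2.pow 3)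
  rw [one_pow, mul_one] at h3
  refine h3.congr fun X => ?_
  rw [div_pow, div_mul_div_comm]

/-- one class of one family -/
theorem clsR (cl0 : S_CL0) (φ : FD) (hφ : Fam φ) (c : ℕ) (hc : c < 8) (ho : Odd c)
    (hA : ∀ d : ℕ, d % 8 = c → Squarefree d → d ≠ 1 → φ.A d)
    (r : ℕ) (hr : 1 ≤ r) (y : ℕ) (hy : y ≤ 1) :
    Tendsto (fun X : ℕ => RG (L2 φ) c y (X / r) / ((X : ℝ) * lg X ^ 3)) atTop
      (𝓝 (1 / (r : ℝ) * (S0 φ.η ^ 2 * HH / (192 * Real.pi ^ 2)))) := by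
  have hdiv : Tendsto (fun X : ℕ => X / r) atTop atTop := by
    refine tendsto_atTop.2 fun b => ?_
    filter_upwards [eventually_ge_atTop (r * b)] with X hX
    rw [Nat.le_div_iff_mul_le (by omega), mul_comm]
    exact hX
  have h0 := (cl0 φ hφ c hc ho hA).comp hdiv
  have h1 := (ratio r hr).mul h0
  have hM0 : 0 ≤ L2 φ 1 := by unfold L2; positivity
  have hlg0 : Tendsto (fun X : ℕ => L2 φ 1 / ((X : ℝ) * lg X ^ 3)) atTop (𝓝 0) := by
    refine Tendsto.const_div_atTop ?_ _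
    refine Tendsto.atTop_mul_atTop₀ tendsto_natCast_atTop_atTop ?_
    exact (tendsto_pow_atTop (by norm_num)).comp lg_tendsto
  have hdiff : Tendsto (fun X : ℕ => RG (L2 φ) c y (X / r) / ((X : ℝ) * lg X ^ 3) -
      (((X / r : ℕ) : ℝ) * lg (X / r) ^ 3) / ((X : ℝ) * lg X ^ 3) *
      (((fun X : ℕ => (∑ d ∈ (Icc 1 X).filter (fun d => d % 8 = c ∧ Squarefree d ∧ d ≠ 1),
        LLg φ d (1 / 2) ^ 2) / (X * lg X ^ 3)) ∘ fun X : ℕ => X / r) X)) atTop (𝓝 0) := by
    refine squeeze_zero_norm' ?_ hlg0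
    filter_upwards [eventually_ge_atTop r] with X hX
    have hX1 : 1 ≤ X := by omega
    have hX0 : (0 : ℝ) < X := by exact_mod_cast hX1
    have hl : 0 < lg X := by have := lg_one_le hX1; linarith
    have hd : 1 ≤ X / r := by
      rw [Nat.le_div_iff_mul_le (by omega)]
      omega
    have hd0 : (0 : ℝ) < ((X / r : ℕ) : ℝ) := by exact_mod_cast hd
    have hld : 0 < lg (X / r) := by have := lg_one_le hd; linarith
    have e0 : (((X / r : ℕ) : ℝ) * lg (X / r) ^ 3) / ((X : ℝ) * lg X ^ 3) *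
      (((fun X : ℕ => (∑ d ∈ (Icc 1 X).filter (fun d => d % 8 = c ∧ Squarefree d ∧ d ≠ 1),
        LLg φ d (1 / 2) ^ 2) / (X * lg X ^ 3)) ∘ fun X : ℕ => X / r) X) =
        (∑ d ∈ (Icc 1 (X / r)).filter (fun d => d % 8 = c ∧ Squarefree d ∧ d ≠ 1),
        LLg φ d (1 / 2) ^ 2) / ((X : ℝ) * lg X ^ 3) := by
      simp only [Function.comp_apply]
      have : (((X / r : ℕ) : ℝ) * lg (X / r) ^ 3) ≠ 0 := by positivity
      field_simp
    rw [e0, ← sub_div, norm_div, Real.norm_eq_abs, Real.norm_eq_abs,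
      abs_of_pos (by positivity : 0 < (X : ℝ) * lg X ^ 3)]
    refine div_le_div_of_nonneg_right ?_ (by positivity)
    have e1 : RG (L2 φ) c y (X / r) = ∑ d ∈ (Icc 1 (X / r)).filter
        (fun d => d % 8 = c ∧ Squarefree d ∧ d ≠ 1), LLg φ d (1 / 2) ^ 2 +
        ∑ d ∈ ((Ioc y (X / r)).filter (fun d => d % 8 = c ∧ Squarefree d)).filter
          (fun d => ¬ d ≠ 1), L2 φ d := by
      unfold RG
      rw [← Finset.sum_filter_add_sum_filter_not
        ((Ioc y (X / r)).filter (fun d => d % 8 = c ∧ Squarefree d)) (fun d => d ≠ 1)]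
      congr 1
      apply sum_congr
      · ext d
        simp only [mem_filter, mem_Ioc, mem_Icc]
        constructor
        · rintro ⟨⟨⟨a1, a2⟩, a3, a4⟩, a5⟩
          exact ⟨⟨by omega, a2⟩, a3, a4, a5⟩
        · rintro ⟨⟨a1, a2⟩, a3, a4, a5⟩
          exact ⟨⟨⟨by omega, a2⟩, a3, a4⟩, a5⟩
      · intro d _
        rfl
    rw [e1, add_sub_cancel_left]
    have h2 : ∀ d ∈ ((Ioc y (X / r)).filter (fun d => d % 8 = c ∧ Squarefree d)).filter
      (fun d => ¬ d ≠ 1), L2 φ d ≤ L2 φ 1 := by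
      intro d hd
      simp only [mem_filter, not_not] at hd
      rw [hd.2]
    have h2' : ∀ d ∈ ((Ioc y (X / r)).filter (fun d => d % 8 = c ∧ Squarefree d)).filter
      (fun d => ¬ d ≠ 1), 0 ≤ L2 φ d := by
      intro d hd
      simp only [mem_filter, not_not] at hd
      rw [hd.2]
      exact hM0
    rw [abs_of_nonneg (sum_nonneg h2')]
    refine (Finset.sum_le_card_nsmul _ _ _ h2).trans ?_
    have h3 : (((Ioc y (X / r)).filter (fun d => d % 8 = c ∧ Squarefree d)).filter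
      (fun d => ¬ d ≠ 1)).card ≤ 1 := by
      have : (((Ioc y (X / r)).filter (fun d => d % 8 = c ∧ Squarefree d)).filter
        (fun d => ¬ d ≠ 1)) ⊆ {1} := by
        intro d hd
        simp only [mem_filter, not_not] at hd
        rw [mem_singleton]; exact hd.2
      exact (Finset.card_le_card this).trans (by simp)
    rw [nsmul_eq_mul]
    have h4 : ((((((Ioc y (X / r)).filter (fun d => d % 8 = c ∧ Squarefree d)).filter
      (fun d => ¬ d ≠ 1)).card : ℕ) : ℝ)) ≤ 1 := by exact_mod_cast h3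
    nlinarith
  have h5 := hdiff.add h1
  rw [zero_add] at h5
  refine h5.congr fun X => ?_
  ring

/-- all classes of one family -/
theorem clsRF (cl0 : S_CL0) (φ : FD) (hφ : Fam φ) (Cl : Finset ℕ) (hc : ∀ c ∈ Cl, c < 8 ∧ Odd c)
    (hA : ∀ c ∈ Cl, ∀ d : ℕ, d % 8 = c → Squarefree d → d ≠ 1 → φ.A d)
    (r : ℕ) (hr : 1 ≤ r) (y : ℕ) (hy : y ≤ 1) :
    Tendsto (fun X : ℕ => (∑ c ∈ Cl, RG (L2 φ) c y (X / r)) / ((X : ℝ) * lg X ^ 3)) atTop
      (𝓝 (Cl.card * (1 / (r : ℝ) * (S0 φ.η ^ 2 * HH / (192 * Real.pi ^ 2))))) := by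
  have h := tendsto_finsetSum Cl (fun c hc' => clsR cl0 φ hφ c (hc c hc').1 (hc c hc').2
    (hA c hc') r hr y hy)
  rw [sum_const, nsmul_eq_mul] at h
  refine h.congr fun X => ?_
  rw [sum_div]

theorem S0_sq : S0 1 ^ 2 + S0 (-1) ^ 2 = 12 := by
  unfold S0
  have h2 : Real.sqrt 2 ^ 2 = 2 := Real.sq_sqrt (by norm_num)
  have h1 : 1 < Real.sqrt 2 := by
    rw [show (1 : ℝ) = Real.sqrt 1 by simp]
    exact Real.sqrt_lt_sqrt (by norm_num) (by norm_num)
  have h0 : 0 < Real.sqrt 2 := by linarith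
  have e1 : 1 / (1 - 1 / Real.sqrt 2) = Real.sqrt 2 / (Real.sqrt 2 - 1) := by
    field_simp
  have e2 : 1 / (1 - -1 / Real.sqrt 2) = Real.sqrt 2 / (Real.sqrt 2 + 1) := by
    have h6 : 1 - -1 / Real.sqrt 2 = (Real.sqrt 2 + 1) / Real.sqrt 2 := by
      field_simp
      ring
    rw [h6, one_div_div]
  rw [e1, e2, div_pow, div_pow, h2]
  have h3 : Real.sqrt 2 - 1 ≠ 0 := by linarith
  have h4 : Real.sqrt 2 + 1 ≠ 0 := by linarith
  rw [div_add_div _ _ (pow_ne_zero 2 h3) (pow_ne_zero 2 h4), div_eq_iff (by positivity)]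
  have h5 : (Real.sqrt 2 - 1) ^ 2 * (Real.sqrt 2 + 1) ^ 2 = 1 := by
    have : (Real.sqrt 2 - 1) * (Real.sqrt 2 + 1) = 1 := by nlinarith
    rw [← mul_pow, this, one_pow]
  rw [h5]
  nlinarith

/-- the limit for given classes -/
theorem genR (cl0 : S_CL0) (fdd : S_FDD) (ε : ℤ) (hε : ε = 1 ∨ ε = -1) (Cl8 Cl4 Cl1 Cl5 : Finset ℕ)
    (hc : ∀ c ∈ Cl8 ∪ Cl4 ∪ Cl1 ∪ Cl5, c < 8 ∧ Odd c) (o15 : Disjoint Cl1 Cl5)
    (n8 : Cl8.card = 4) (n4 : Cl4.card = 2) (n1 : Cl1.card = 1) (n5 : Cl5.card = 1)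
    (h8 : ∀ d : ℕ, 1 ≤ d → Squarefree d → ((F8 ε).A d ↔ d % 8 ∈ Cl8))
    (h4 : ∀ d : ℕ, 1 ≤ d → Squarefree d → ((F4 ε).A d ↔ d % 8 ∈ Cl4))
    (h1 : ∀ d : ℕ, 2 ≤ d → Squarefree d → ((F1 ε 1).A d ↔ d % 8 ∈ Cl1))
    (h5 : ∀ d : ℕ, 2 ≤ d → Squarefree d → ((F1 ε 5).A d ↔ d % 8 ∈ Cl5)) :
    Tendsto (fun X : ℕ => (∑ n ∈ Ioc 1 X, Lf ε n ^ 2) / (X * lg X ^ 3)) atTop
      (𝓝 (13 * HH / (192 * Real.pi ^ 2))) := by
  have f8 : Fam (F8 ε) := ⟨ε, hε, Or.inl rfl⟩
  have f4 : Fam (F4 ε) := ⟨ε, hε, Or.inr (Or.inl rfl)⟩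
  have f1 : Fam (F1 ε 1) := ⟨ε, hε, Or.inr (Or.inr (Or.inl rfl))⟩
  have f5 : Fam (F1 ε 5) := ⟨ε, hε, Or.inr (Or.inr (Or.inr rfl))⟩
  have c8 : ∀ c ∈ Cl8, c < 8 ∧ Odd c := fun c h => hc c (by simp [h])
  have c4 : ∀ c ∈ Cl4, c < 8 ∧ Odd c := fun c h => hc c (by simp [h])
  have c1 : ∀ c ∈ Cl1, c < 8 ∧ Odd c := fun c h => hc c (by simp [h])
  have c5 : ∀ c ∈ Cl5, c < 8 ∧ Odd c := fun c h => hc c (by simp [h])
  have pos : ∀ c : ℕ, Odd c → ∀ d : ℕ, d % 8 = c → 1 ≤ d := by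
    intro c ho d hd
    rw [Nat.odd_iff] at ho
    omega
  have b8 := clsRF cl0 (F8 ε) f8 Cl8 c8 (fun c hc' d hd hs _ =>
    (h8 d (pos c (c8 c hc').2 d hd) hs).2 (by rw [hd]; exact hc')) 8 (by norm_num) 0
    (by norm_num)
  have b4 := clsRF cl0 (F4 ε) f4 Cl4 c4 (fun c hc' d hd hs _ =>
    (h4 d (pos c (c4 c hc').2 d hd) hs).2 (by rw [hd]; exact hc')) 4 (by norm_num) 0
    (by norm_num)
  have b1 := clsRF cl0 (F1 ε 1) f1 Cl1 c1 (fun c hc' d hd hs hd1 =>
    (h1 d (by have := pos c (c1 c hc').2 d hd; omega) hs).2 (by rw [hd]; exact hc')) 1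
    (by norm_num) 1 (by norm_num)
  have b5 := clsRF cl0 (F1 ε 5) f5 Cl5 c5 (fun c hc' d hd hs hd1 =>
    (h5 d (by have := pos c (c5 c hc').2 d hd; omega) hs).2 (by rw [hd]; exact hc')) 1
    (by norm_num) 1 (by norm_num)
  have hall := ((b8.add b4).add b1).add b5
  have hsum : ∀ X : ℕ, ∑ n ∈ Ioc 1 X, Lf ε n ^ 2 =
      ∑ c ∈ Cl8, RG (L2 (F8 ε)) c 0 (X / 8) + ∑ c ∈ Cl4, RG (L2 (F4 ε)) c 0 (X / 4) +
      ∑ c ∈ Cl1, RG (L2 (F1 ε 1)) c 1 (X / 1) + ∑ c ∈ Cl5, RG (L2 (F1 ε 5)) c 1 (X / 1) := by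
    intro X
    have h := Lf2_eq fdd ε hε Cl8 Cl4 Cl1 Cl5 (fun c h => Nat.odd_iff.1 (c4 c h).2)
      (fun c h => Nat.odd_iff.1 (c1 c h).2) (fun c h => Nat.odd_iff.1 (c5 c h).2) o15 h8 h4 h1 h5 X
      (fun _ => 1)
    simp only [CG_one, mul_one] at h
    rw [Nat.div_one]
    exact_mod_cast h
  have e8 : (F8 ε).η = 0 := rfl
  have e4 : (F4 ε).η = 0 := rfl
  have e1 : (F1 ε 1).η = 1 := by simp [F1]
  have e5 : (F1 ε 5).η = -1 := by simp [F1]
  have e0 : S0 0 = 1 := by simp [S0]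
  have hval : ((Cl8.card : ℝ) * (1 / ((8 : ℕ) : ℝ) * (S0 (F8 ε).η ^ 2 * HH / (192 * Real.pi ^ 2))) +
      (Cl4.card : ℝ) * (1 / ((4 : ℕ) : ℝ) * (S0 (F4 ε).η ^ 2 * HH / (192 * Real.pi ^ 2))) +
      (Cl1.card : ℝ) * (1 / ((1 : ℕ) : ℝ) * (S0 (F1 ε 1).η ^ 2 * HH / (192 * Real.pi ^ 2))) +
      (Cl5.card : ℝ) * (1 / ((1 : ℕ) : ℝ) * (S0 (F1 ε 5).η ^ 2 * HH / (192 * Real.pi ^ 2)))) =
      13 * HH / (192 * Real.pi ^ 2) := by
    rw [n8, n4, n1, n5, e8, e4, e1, e5, e0]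
    have := S0_sq
    push_cast
    linear_combination (HH / (192 * Real.pi ^ 2)) * this
  rw [hval] at hall
  refine hall.congr fun X => ?_
  rw [hsum X]
  ring

theorem t_LF2' (cl0 : S_CL0) (fdd : S_FDD) : S_LF2 := by
  intro ε hε
  rcases hε with rfl | rfl
  · exact genR cl0 fdd 1 (Or.inl rfl) {1, 3, 5, 7} {3, 7} {1} {5}
      (by decide) (by decide) rfl rfl rfl rfl
      (by
        intro d hd hs
        simp only [F8, mem_insert, mem_singleton]
        rw [Nat.odd_iff]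
        omega)
      (by
        intro d hd hs
        simp only [F4, mem_insert, mem_singleton]
        omega)
      (by
        intro d hd hs
        simp only [F1, mem_singleton]
        have := not_sq_nat hd hs
        simp only [this, not_false_eq_true, and_true]
        omega)
      (by
        intro d hd hs
        simp only [F1, mem_singleton]
        have := not_sq_nat hd hs
        simp only [this, not_false_eq_true, and_true]
        omega)
  · exact genR cl0 fdd (-1) (Or.inr rfl) {1, 3, 5, 7} {1, 5} {7} {3}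
      (by decide) (by decide) rfl rfl rfl rfl
      (by
        intro d hd hs
        simp only [F8, mem_insert, mem_singleton]
        rw [Nat.odd_iff]
        omega)
      (by
        intro d hd hs
        simp only [F4, mem_insert, mem_singleton]
        omega)
      (by
        intro d hd hs
        simp only [F1, mem_singleton]
        have := not_sq_neg hd
        simp only [this, not_false_eq_true, and_true]
        omega)
      (by
        intro d hd hs
        simp only [F1, mem_singleton]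
        have := not_sq_neg hd
        simp only [this, not_false_eq_true, and_true]
        omega)

theorem t_LF2 (cl0 : S_CL0) : S_LF2 := t_LF2' cl0 Pool.Agent.Q122.FM.fdd

end

end Pool.Agent.H39.BR4
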